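import Pool.Agent.Helper61.QS.GoalsG

/-!
# Project QS (MP_0ebdb3_gt), packet SR1: curvature of the rotationally symmetric metrics
-/

set_option autoImplicit false

open Set ComplexConjugate

namespace Pool.Agent.Helper13.QS

open Pool.Agent.Helper61.QS

/-- derivative along a line -/
theorem fderiv_line {F : R4 → ℝ} {y v : R4} (hF : DifferentiableAt ℝ F y) {φ : ℝ → ℝ} {c : ℝ}
    (h : ∀ t : ℝ, F (y + t • v) = φ t) (hφ : HasDerivAt φ c 0) : fderiv ℝ F y v = c := by
  have h1 : HasDerivAt (fun t : ℝ => y + t • v) v 0 := by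
    have h2 := ((hasDerivAt_id (0 : ℝ)).smul_const v).const_add y
    simpa using h2
  have h3 : HasFDerivAt F (fderiv ℝ F y) (y + (0 : ℝ) • v) := by
    rw [zero_smul, add_zero]
    exact hF.hasFDerivAt
  have h4 : HasDerivAt (fun t : ℝ => F (y + t • v)) (fderiv ℝ F y v) 0 :=
    h3.comp_hasDerivAt 0 h1
  have h5 : (fun t : ℝ => F (y + t • v)) = φ := funext h
  rw [h5] at h4
  exact h4.unique hφ

theorem conj_exp_mul (t : ℝ) :
    conj (Complex.exp (t * Complex.I)) * Complex.exp (t * Complex.I) = 1 := by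
  rw [Complex.conj_mul', Complex.norm_exp_ofReal_mul_I]
  simp

/-- the unit vectors -/
abbrev er : R4 := (1, 0, 0, 0)
abbrev et : R4 := (0, 1, 0, 0)

theorem kap_er (hPL : G_PL) (m : ℤ) (x : R4) :
    kap m (pol x) (fderiv ℝ pol x er) = 0 := by
  have hE := conj_exp_mul x.2.2.1
  have h1 := hPL.2.2.2.1 x er
  have heta : eta (pol x) (fderiv ℝ pol x er) = 0 := by
    rw [h1]
    unfold eta pol er
    simp only [map_mul, Complex.conj_ofReal, mul_one, mul_zero, add_zero, Complex.ofReal_one,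
      Complex.ofReal_zero]
    have h2 : (Real.cos x.1 : ℂ) * -(Real.sin x.1 : ℂ) +
        conj (Complex.exp (x.2.2.1 * Complex.I)) * (Real.sin x.1 : ℂ) *
          (Complex.exp (x.2.2.1 * Complex.I) * (Real.cos x.1 : ℂ)) = 0 := by
      linear_combination (Real.sin x.1 : ℂ) * (Real.cos x.1 : ℂ) * hE
    rw [h2]
    rfl
  unfold kap
  rw [heta, h1]
  unfold er
  simp

theorem kap_et (hPL : G_PL) (m : ℤ) (x : R4) :
    kap m (pol x) (fderiv ℝ pol x et) =
      (Complex.exp (x.2.2.2 * Complex.I) * Real.cos x.2.1, -Real.sin x.2.1) := by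
  have h1 := hPL.2.2.2.1 x et
  have heta : eta (pol x) (fderiv ℝ pol x et) = 0 := by
    rw [h1]
    unfold eta et
    simp
  unfold kap
  rw [heta, h1]
  unfold et
  simp

theorem kap_gen (hPL : G_PL) (m : ℤ) (x u : R4) : ∃ c : ℝ,
    kap m (pol x) (fderiv ℝ pol x u) =
      u.2.1 • (Complex.exp (x.2.2.2 * Complex.I) * Real.cos x.2.1, -Real.sin x.2.1) +
      c • (Complex.I * (pol x).2.1, (0 : ℝ)) := by
  refine ⟨u.2.2.2 - m * eta (pol x) (fderiv ℝ pol x u), ?_⟩
  have h1 := hPL.2.2.2.1 x u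
  unfold kap
  generalize eta (pol x) (fderiv ℝ pol x u) = η
  rw [h1]
  refine Prod.ext ?_ ?_
  · simp only [Prod.fst_add, Prod.smul_fst, Complex.real_smul]
    unfold pol
    push_cast
    ring
  · simp only [Prod.snd_add, Prod.smul_snd, smul_eq_mul]
    ring

theorem pol_snd_mem (hPL : G_PL) (x : R4) : (pol x).2 ∈ S2 := (hPL.2.1 x).2

/-- `K(∂θ q, ∂β q) = 0` -/
theorem K_et_eb (hPL : G_PL) (K : ℂ × ℝ → (ℂ × ℝ) →L[ℝ] (ℂ × ℝ) →L[ℝ] ℝ)
    (hmer : ∀ q ∈ S2, K q (-(q.2 * q.1), 1 - q.2 ^ 2) (Complex.I * q.1, 0) = 0) (x : R4) :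
    K (pol x).2 (Complex.exp (x.2.2.2 * Complex.I) * Real.cos x.2.1, -Real.sin x.2.1)
      (Complex.I * (pol x).2.1, (0 : ℝ)) = 0 := by
  have h1 := hmer (pol x).2 (pol_snd_mem hPL x)
  have h2 : ((-(((pol x).2.2 : ℂ) * (pol x).2.1), 1 - (pol x).2.2 ^ 2) : ℂ × ℝ) =
      (-Real.sin x.2.1) • (Complex.exp (x.2.2.2 * Complex.I) * Real.cos x.2.1,
        -Real.sin x.2.1) := by
    refine Prod.ext ?_ ?_
    · simp only [Prod.smul_fst, Complex.real_smul]
      unfold pol
      push_cast
      ring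
    · simp only [Prod.smul_snd, smul_eq_mul]
      unfold pol
      simp only
      nlinarith [Real.sin_sq_add_cos_sq x.2.1]
  rw [h2, map_smul] at h1
  rcases eq_or_ne (Real.sin x.2.1) 0 with h3 | h3
  · have h4 : (Complex.I * (pol x).2.1, (0 : ℝ)) = (0 : ℂ × ℝ) := by
      unfold pol
      simp only [h3]
      simp
    rw [h4, map_zero]
  · have h5 : -Real.sin x.2.1 * K (pol x).2 (Complex.exp (x.2.2.2 * Complex.I) * Real.cos x.2.1,
        -Real.sin x.2.1) (Complex.I * (pol x).2.1, (0 : ℝ)) = 0 := h1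
    exact (mul_eq_zero.mp h5).resolve_left (neg_ne_zero.mpr h3)

/-- `K(∂θ q, ∂θ q) = A(θ)` -/
theorem K_et_et (K : ℂ × ℝ → (ℂ × ℝ) →L[ℝ] (ℂ × ℝ) →L[ℝ] ℝ)
    (hrot : ∀ ζ : ℂ, ‖ζ‖ = 1 → ∀ q ∈ S2, ∀ a b : ℂ × ℝ,
      K (ζ * q.1, q.2) (ζ * a.1, a.2) (ζ * b.1, b.2) = K q a b) (x : R4) :
    K (pol x).2 (Complex.exp (x.2.2.2 * Complex.I) * Real.cos x.2.1, -Real.sin x.2.1)
      (Complex.exp (x.2.2.2 * Complex.I) * Real.cos x.2.1, -Real.sin x.2.1) = AK K x.2.1 := by
  have hq : ((Real.sin x.2.1 : ℂ), Real.cos x.2.1) ∈ S2 := by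
    unfold S2
    change ‖(Real.sin x.2.1 : ℂ)‖ ^ 2 + Real.cos x.2.1 ^ 2 = 1
    rw [Complex.norm_real, Real.norm_eq_abs, sq_abs, Real.sin_sq_add_cos_sq]
  exact hrot (Complex.exp (x.2.2.2 * Complex.I)) (Complex.norm_exp_ofReal_mul_I _)
    ((Real.sin x.2.1 : ℂ), Real.cos x.2.1) hq ((Real.cos x.2.1 : ℂ), -Real.sin x.2.1)
    ((Real.cos x.2.1 : ℂ), -Real.sin x.2.1)

/-- PACKET QS-SR1. -/
theorem goalSR1 (hPL : G_PL) (hBX : G_BX) : G_SR1 := by
  intro m gM φ H K hB hφ hφ0 hH hK hgM hrot hmer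
  obtain ⟨hC2, hsym, hpos, hex⟩ := hBX m gM hB
  set h : R4 → R4 →L[ℝ] R4 →L[ℝ] ℝ := gB gM pol with hh
  -- the general formula
  have E0 : ∀ x u v, h x u v = φ (Real.cos x.2.1) ^ 2 *
      H (pol x).1 (fderiv ℝ pol x u).1 (fderiv ℝ pol x v).1 +
      K (pol x).2 (kap m (pol x) (fderiv ℝ pol x u)) (kap m (pol x) (fderiv ℝ pol x v)) :=
    fun x u v => hgM (pol x) (hPL.2.1 x) _ (hPL.2.2.1 x u) _ (hPL.2.2.1 x v)
  -- `h ∂θ u = A u_θ`
  have E1 : ∀ x u, h x et u = AK K x.2.1 * u.2.1 := by
    intro x u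
    obtain ⟨c, hc⟩ := kap_gen hPL m x u
    have h1 : (fderiv ℝ pol x et).1 = 0 := by
      rw [hPL.2.2.2.1 x et]
      simp [et]
    rw [E0, kap_et hPL, hc, map_add, map_smul, map_smul, K_et_et K hrot, K_et_eb hPL K hmer, h1,
      map_zero]
    simp [mul_comm]
  have E2 : ∀ x u, h x u et = AK K x.2.1 * u.2.1 := fun x u => by rw [hsym, E1]
  -- `h ∂r u = f² Λ`
  set Λ : R4 → R4 → ℝ := fun x u => H (pol x).1 (fderiv ℝ pol x er).1 (fderiv ℝ pol x u).1 with hΛ
  have E3 : ∀ x u, h x er u = fφ φ x.2.1 ^ 2 * Λ x u := by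
    intro x u
    rw [E0, kap_er hPL, map_zero]
    simp [hΛ, fφ]
  have hΛt : ∀ x u, ∀ t : ℝ, Λ (x + t • et) u = Λ x u := by
    intro x u t
    have h1 : (pol (x + t • et)).1 = (pol x).1 := by
      unfold pol et
      simp
    have h2 : ∀ v, (fderiv ℝ pol (x + t • et) v).1 = (fderiv ℝ pol x v).1 := by
      intro v
      rw [hPL.2.2.2.1 (x + t • et) v, hPL.2.2.2.1 x v]
      unfold et
      simp
    simp only [hΛ]
    rw [h1, h2, h2]
  -- differentiability
  have hd2 : ∀ u v, ContDiff ℝ 2 (fun y => h y u v) := fun u v =>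
    (hC2.clm_apply contDiff_const).clm_apply contDiff_const
  have hd : ∀ u v x, DifferentiableAt ℝ (fun y => h y u v) x := fun u v x =>
    (hd2 u v).differentiable (by norm_num) x
  have hf3 : ContDiff ℝ 3 (fφ φ) := hφ.comp (Real.contDiff_cos.of_le (by exact le_top))
  have hf1 : ∀ θ, HasDerivAt (fφ φ) (deriv (fφ φ) θ) θ := fun θ =>
    (hf3.differentiable (by norm_num) θ).hasDerivAt
  have hf2 : ∀ θ, HasDerivAt (deriv (fφ φ)) (deriv (deriv (fφ φ)) θ) θ := fun θ => by
    have h1 : ContDiff ℝ 2 (deriv (fφ φ)) := by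
      have h2 : ContDiff ℝ (2 + 1) (fφ φ) := hf3
      exact (contDiff_succ_iff_deriv.mp h2).2.2
    exact (h1.differentiable (by norm_num) θ).hasDerivAt
  have hA1 : ∀ θ, HasDerivAt (AK K) (deriv (AK K) θ) θ := fun θ => by
    have h1 : AK K = fun s : ℝ => h ((0 : R4) + s • et) et et := by
      funext s
      rw [E1]
      simp [et]
    have h2 : DifferentiableAt ℝ (AK K) θ := by
      rw [h1]
      have h3 : DifferentiableAt ℝ (fun s : ℝ => (0 : R4) + s • et) θ := by fun_prop
      exact (hd et et ((0 : R4) + θ • et)).comp θ h3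
    exact h2.hasDerivAt
  have hshift : ∀ (g : ℝ → ℝ) (c θ : ℝ), HasDerivAt g c θ →
      HasDerivAt (fun t : ℝ => g (θ + t)) c 0 := by
    intro g c θ hg
    have h1 : HasDerivAt g c (θ + 0) := by rwa [add_zero]
    exact h1.comp_const_add θ 0
  constructor
  · -- positivity of `A`
    intro θ
    have h1 := hB.pos (pol (0, θ, 0, 0)) (hPL.2.1 _) (fderiv ℝ pol (0, θ, 0, 0) et)
      (hPL.2.2.1 _ _) (by
        intro τ hτ
        rw [hPL.2.2.2.1 (0, θ, 0, 0) et] at hτ
        have e1 := congrArg (fun P : W => P.1.1) hτ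
        have e2 := congrArg (fun P : W => P.2) hτ
        unfold orb pol et at e1 e2
        simp at e1
        rw [e1] at e2
        simp at e2
        have e4 : Real.cos θ = 0 := by exact_mod_cast e2.1
        have e5 := Real.sin_sq_add_cos_sq θ
        rw [e4, e2.2] at e5
        norm_num at e5)
    have h2 : h (0, θ, 0, 0) et et = AK K θ := by
      rw [E1]
      simp [et]
    rw [← h2]
    exact h1
  · intro x hx
    have hfpos : 0 < fφ φ x.2.1 := hφ0 _
    have hApos : 0 < AK K x.2.1 := by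
      have h1 := hpos x hx et (by
        intro h0
        have := congrArg (fun y : R4 => y.2.1) h0
        simp [et] at this)
      rw [E1] at h1
      simpa [et] using h1
    set f := fφ φ with hfdef
    set Am := AK K with hAdef
    have hrr : 0 < Λ x er := by
      have h1 := hpos x hx er (by
        intro h0
        have := congrArg (fun y : R4 => y.1) h0
        simp [er] at this)
      rw [E3] at h1
      exact pos_of_mul_pos_right h1 (by positivity)
    refine ⟨Λ x er, hrr, ?_⟩
    -- first derivatives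
    have D1 : ∀ y u, fderiv ℝ (fun y => h y et u) y er = 0 := by
      intro y u
      refine fderiv_line (hd et u y) (φ := fun _ => Am y.2.1 * u.2.1) (fun t => ?_)
        (hasDerivAt_const _ _)
      change h (y + t • er) et u = _
      rw [E1]
      simp [er]
    have D2 : ∀ y u, fderiv ℝ (fun y => h y er u) y et = 2 * f y.2.1 * deriv f y.2.1 * Λ y u := by
      intro y u
      have h1 : HasDerivAt (fun t : ℝ => f (y.2.1 + t) ^ 2 * Λ y u)
          (2 * f y.2.1 * deriv f y.2.1 * Λ y u) 0 := by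
        have h2 := ((hshift f _ _ (hf1 y.2.1)).pow 2).mul_const (Λ y u)
        simpa using h2
      refine fderiv_line (hd er u y) (fun t => ?_) h1
      change h (y + t • et) er u = _
      rw [E3, hΛt]
      simp [et]
    have hrt : (fun y => h y er et) = fun _ => (0 : ℝ) := by
      funext y
      rw [E2]
      simp [er]
    have D3 : ∀ y u, fderiv ℝ (fun y => h y er et) y u = 0 := by
      intro y u
      rw [hrt]
      simp
    have D4 : ∀ y u, fderiv ℝ (fun y => h y et u) y et = deriv Am y.2.1 * u.2.1 := by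
      intro y u
      have h1 : HasDerivAt (fun t : ℝ => Am (y.2.1 + t) * u.2.1) (deriv Am y.2.1 * u.2.1) 0 :=
        (hshift Am _ _ (hA1 y.2.1)).mul_const _
      refine fderiv_line (hd et u y) (fun t => ?_) h1
      change h (y + t • et) et u = _
      rw [E1]
      simp [et]
    have D5 : ∀ y u, fderiv ℝ (fun y => h y et et) y u = deriv Am y.2.1 * u.2.1 := by
      intro y u
      have h1 : HasDerivAt (fun t : ℝ => Am (y.2.1 + t * u.2.1)) (deriv Am y.2.1 * u.2.1) 0 := by
        have h2 : HasDerivAt (fun t : ℝ => y.2.1 + t * u.2.1) u.2.1 0 := by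
          have h3 := ((hasDerivAt_id (0 : ℝ)).mul_const u.2.1).const_add y.2.1
          simpa using h3
        have h4 : HasDerivAt Am (deriv Am y.2.1) (y.2.1 + 0 * u.2.1) := by
          rw [zero_mul, add_zero]
          exact hA1 _
        exact h4.comp (0 : ℝ) h2
      refine fderiv_line (hd et et y) (fun t => ?_) h1
      change h (y + t • u) et et = _
      rw [E1]
      simp [et]
    obtain ⟨K0, _, caa, _, _, hcaa, _, _⟩ := hex x hx
    refine ⟨(deriv f x.2.1 / f x.2.1) • er, caa, (deriv Am x.2.1 / (2 * Am x.2.1)) • et,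
      ?_, hcaa, ?_, ?_⟩
    · intro u
      unfold Gam
      rw [D1, D2, D3, map_smul]
      change deriv f x.2.1 / f x.2.1 * h x er u = _
      rw [E3]
      field_simp
      ring
    · intro u
      unfold Gam
      rw [D4, D5, map_smul]
      change deriv Am x.2.1 / (2 * Am x.2.1) * h x et u = _
      rw [E1]
      field_simp
      ring
    · -- second derivatives
      have S1 : dd (fun y => h y et et) x er er = 0 := by
        unfold dd
        have h1 : (fun y => fderiv ℝ (fun y => h y et et) y er) = fun _ => (0 : ℝ) := by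
          funext y
          exact D1 y et
        rw [h1]
        simp
      have S3 : dd (fun y => h y er et) x er et = 0 := by
        unfold dd
        have h1 : (fun y => fderiv ℝ (fun y => h y er et) y et) = fun _ => (0 : ℝ) := by
          funext y
          exact D3 y et
        rw [h1]
        simp
      have S2' : dd (fun y => h y er er) x et et =
          2 * (deriv f x.2.1 ^ 2 + f x.2.1 * deriv (deriv f) x.2.1) * Λ x er := by
        unfold dd
        have hdiff : DifferentiableAt ℝ (fun y => fderiv ℝ (fun y => h y er er) y et) x := by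
          have h1 : ContDiff ℝ 1 (fun y => fderiv ℝ (fun y => h y er er) y) :=
            (hd2 er er).fderiv_right (by norm_num)
          exact ((h1.clm_apply contDiff_const).differentiable (by norm_num)) x
        have h1 : HasDerivAt (fun t : ℝ => 2 * f (x.2.1 + t) * deriv f (x.2.1 + t) * Λ x er)
            (2 * (deriv f x.2.1 ^ 2 + f x.2.1 * deriv (deriv f) x.2.1) * Λ x er) 0 := by
          have h2 := (((hshift f _ _ (hf1 x.2.1)).const_mul 2).mul
            (hshift (deriv f) _ _ (hf2 x.2.1))).mul_const (Λ x er)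
          refine HasDerivAt.congr_deriv h2 ?_
          simp only [add_zero]
          ring
        refine fderiv_line hdiff (fun t => ?_) h1
        change fderiv ℝ (fun y => h y er er) (x + t • et) et = _
        rw [D2, hΛt]
        simp [et]
      have T1 : h x caa ((deriv Am x.2.1 / (2 * Am x.2.1)) • et) =
          -(deriv Am x.2.1 / (2 * Am x.2.1) * (f x.2.1 * deriv f x.2.1 * Λ x er)) := by
        rw [map_smul, smul_eq_mul, hcaa et]
        unfold Gam
        rw [D3, D2]
        ring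
      have T2 : h x ((deriv f x.2.1 / f x.2.1) • er) ((deriv f x.2.1 / f x.2.1) • er) =
          deriv f x.2.1 ^ 2 * Λ x er := by
        rw [map_smul, map_smul, smul_eq_mul]
        change deriv f x.2.1 / f x.2.1 * (deriv f x.2.1 / f x.2.1 * h x er er) = _
        rw [E3]
        field_simp
      rw [S1, S2', S3, T1, T2]
      field_simp
      ring

end Pool.Agent.Helper13.QS
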